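import Pool.Agent.Helper379_HC.RMod

/-!
# Relation modules of extensions (MP_3ca9d5_al)
-/

set_option autoImplicit false

namespace Pool.Agent.Helper379_HC

open Pool.Agent.W326.DU Pool.Agent.Y66.HC Pool.Agent.W386

section quot
variable {G : Type} [Group G]

theorem IL_mem_iff (H : Subgroup G) (x : ZG G) :
    x ∈ IL ℤ (H : Set G) ↔
      Finsupp.mapDomain (QuotientGroup.mk : G → G ⧸ H) x.coeff = 0 := by
  classical
  constructor
  · intro hx
    have key : ∀ a : ZG G, Finsupp.mapDomain (QuotientGroup.mk : G → G ⧸ H) (a * x).coeff = 0 := by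
      unfold IL at hx
      induction hx using Submodule.span_induction with
      | mem x hx =>
        obtain ⟨s, hs, rfl⟩ := hx
        intro a
        induction a using MonoidAlgebra.induction_on with
        | of g =>
          change Finsupp.mapDomain _ (MonoidAlgebra.of ℤ G g * (MonoidAlgebra.of ℤ G s - 1)).coeff = 0
          rw [mul_sub, mul_one, ← map_mul, MonoidAlgebra.of_apply, MonoidAlgebra.of_apply,
            MonoidAlgebra.coeff_sub, MonoidAlgebra.coeff_single, MonoidAlgebra.coeff_single,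
            sub_eq_add_neg, ← Finsupp.single_neg, Finsupp.mapDomain_add,
            Finsupp.mapDomain_single, Finsupp.mapDomain_single]
          have : (QuotientGroup.mk (g * s) : G ⧸ H) = QuotientGroup.mk g := by
            rw [QuotientGroup.mk_mul_of_mem _ hs]
          rw [this, Finsupp.single_neg, add_neg_cancel]
        | add a b ha hb =>
          rw [add_mul, MonoidAlgebra.coeff_add, Finsupp.mapDomain_add, ha, hb, add_zero]
        | smul n a ha =>
          rw [smul_mul_assoc, MonoidAlgebra.coeff_smul, Finsupp.mapDomain_smul, ha, smul_zero]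
      | zero => intro a; rw [mul_zero, MonoidAlgebra.coeff_zero, Finsupp.mapDomain_zero]
      | add x y _ _ hx hy =>
        intro a
        rw [mul_add, MonoidAlgebra.coeff_add, Finsupp.mapDomain_add, hx, hy, add_zero]
      | smul b x _ hx =>
        intro a
        rw [smul_eq_mul, ← mul_assoc]
        exact hx (a * b)
    have := key 1
    rwa [one_mul] at this
  · intro hx
    let σ : G → G := fun g => (QuotientGroup.mk g : G ⧸ H).out
    have key : ∀ x : ZG G, x - MonoidAlgebra.ofCoeff (Finsupp.mapDomain σ x.coeff) ∈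
        IL ℤ (H : Set G) := by
      intro x
      induction x using MonoidAlgebra.induction_on with
      | of g =>
        rw [MonoidAlgebra.of_apply, MonoidAlgebra.coeff_single, Finsupp.mapDomain_single]
        have h1 : (MonoidAlgebra.single g (1 : ℤ) : ZG G) -
            MonoidAlgebra.ofCoeff (Finsupp.single (σ g) 1) =
            MonoidAlgebra.of ℤ G (σ g) * (MonoidAlgebra.of ℤ G ((σ g)⁻¹ * g) - 1) := by
          rw [mul_sub, mul_one, ← map_mul, mul_inv_cancel_left]
          rfl
        rw [h1]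
        refine Submodule.smul_mem _ _ (Submodule.subset_span ⟨_, ?_, rfl⟩)
        change (σ g)⁻¹ * g ∈ H
        rw [← QuotientGroup.eq]
        exact QuotientGroup.out_eq' _
      | add a b ha hb =>
        rw [MonoidAlgebra.coeff_add, Finsupp.mapDomain_add]
        have := Submodule.add_mem _ ha hb
        convert this using 1
        rw [MonoidAlgebra.ofCoeff_add]
        abel
      | smul n a ha =>
        rw [MonoidAlgebra.coeff_smul, Finsupp.mapDomain_smul, MonoidAlgebra.ofCoeff_smul,
          ← smul_sub]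
        exact Submodule.smul_of_tower_mem _ n ha
    have h1 := key x
    have h2 : Finsupp.mapDomain σ x.coeff = 0 := by
      have : σ = (fun q : G ⧸ H => q.out) ∘ (QuotientGroup.mk : G → G ⧸ H) := rfl
      rw [this, Finsupp.mapDomain_comp, hx, Finsupp.mapDomain_zero]
    rw [h2, MonoidAlgebra.ofCoeff_zero, sub_zero] at h1
    exact h1

theorem mem_of_sub_mem_IL (H : Subgroup G) (g : G) (h : MonoidAlgebra.of ℤ G g - 1 ∈
    IL ℤ (H : Set G)) : g ∈ H := by
  rw [IL_mem_iff, MonoidAlgebra.of_apply, MonoidAlgebra.one_def, MonoidAlgebra.coeff_sub,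
    MonoidAlgebra.coeff_single, MonoidAlgebra.coeff_single, sub_eq_add_neg,
    ← Finsupp.single_neg, Finsupp.mapDomain_add, Finsupp.mapDomain_single,
    Finsupp.mapDomain_single, Finsupp.single_neg, add_neg_eq_zero] at h
  have h1 : (QuotientGroup.mk g : G ⧸ H) = QuotientGroup.mk 1 :=
    Finsupp.single_left_injective one_ne_zero h
  have h2 := QuotientGroup.eq.1 h1.symm
  simpa using h2

theorem IL_comap {P : Type} [Group P] (ρ : P →* G) (H : Subgroup G) (c : ZG P)
    (h : MonoidAlgebra.mapDomainRingHom ℤ ρ c ∈ IL ℤ (H : Set G)) :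
    c ∈ IL ℤ ((H.comap ρ : Subgroup P) : Set P) := by
  rw [IL_mem_iff] at h ⊢
  let j : P ⧸ H.comap ρ → G ⧸ H := Quotient.map' ρ (by
    intro a b hab
    rw [QuotientGroup.leftRel_apply] at hab ⊢
    rw [← map_inv, ← map_mul]
    exact hab)
  have hj : Function.Injective j := by
    intro a b hab
    induction a using QuotientGroup.induction_on with
    | H a =>
    induction b using QuotientGroup.induction_on with
    | H b =>
    have h1 : (QuotientGroup.mk (ρ a) : G ⧸ H) = QuotientGroup.mk (ρ b) := hab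
    rw [QuotientGroup.eq, ← map_inv, ← map_mul] at h1
    exact QuotientGroup.eq.2 h1
  apply Finsupp.mapDomain_injective hj
  rw [Finsupp.mapDomain_zero, ← Finsupp.mapDomain_comp]
  have h2 : (MonoidAlgebra.mapDomainRingHom ℤ ρ c).coeff = Finsupp.mapDomain ρ c.coeff := by
    rw [MonoidAlgebra.mapDomainRingHom_apply, MonoidAlgebra.coeff_mapDomain]
  rw [h2, ← Finsupp.mapDomain_comp] at h
  exact h

end quot

section star
variable {B G : Type} [Group B] [Group G] (ι : B →* G) (hι : Function.Injective ι)

open Pool.Agent.W571.DU.BC in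
theorem decomp' (x : ZG G) (S : Finset (G ⧸ ι.range))
    (hS : ∀ a, x.coeff a ≠ 0 → (QuotientGroup.mk a : G ⧸ ι.range) ∈ S) :
    x = ∑ q ∈ S, MonoidAlgebra.of ℤ G q.out *
        MonoidAlgebra.mapDomainRingHom ℤ ι (pi ℤ ι hι q.out x) := by
  classical
  apply MonoidAlgebra.ext
  ext a
  rw [MonoidAlgebra.coeff_sum, Finsupp.finsetSum_apply]
  simp only [coeff_term]
  have key : ∀ q : G ⧸ ι.range, q.out⁻¹ * a ∈ ι.range ↔ q = (a : G ⧸ ι.range) := by
    intro q
    rw [← QuotientGroup.eq, QuotientGroup.out_eq']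
  by_cases ha : x.coeff a = 0
  · rw [ha]
    simp
  · rw [Finset.sum_eq_single (a : G ⧸ ι.range)]
    · rw [if_pos ((key _).2 rfl)]
    · intro q _ hq
      rw [if_neg]
      intro h
      exact hq ((key q).1 h)
    · intro h
      exact absurd (hS a ha) h

/-- the map on relation modules -/
noncomputable def mapPi {I : Type} (c : I → ZG B) : I → ZG G :=
  fun i => MonoidAlgebra.mapDomainRingHom ℤ ι (c i)

theorem mapDomain_of (b : B) : MonoidAlgebra.mapDomainRingHom ℤ ι (MonoidAlgebra.of ℤ B b) =
    MonoidAlgebra.of ℤ G (ι b) := by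
  simp [MonoidAlgebra.of_apply]

theorem mapPi_mem {I : Type} [Fintype I] (y : I → B) (c : I → ZG B) (hc : c ∈ RM y) :
    mapPi ι c ∈ RM (fun i => ι (y i)) := by
  rw [mem_RM] at hc ⊢
  have := congrArg (MonoidAlgebra.mapDomainRingHom ℤ ι) hc
  rw [map_sum, map_zero] at this
  rw [← this]
  refine Finset.sum_congr rfl fun i _ => ?_
  rw [map_mul, map_sub, map_one, mapDomain_of]
  rfl

include hι in
open Pool.Agent.W571.DU.BC in
theorem RM_bc {I : Type} [Fintype I] (y : I → B) (S : Set (I → ZG B))
    (hS : Submodule.span (ZG B) S = RM y) :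
    RM (fun i => ι (y i)) = Submodule.span (ZG G) (mapPi ι '' S) := by
  classical
  apply le_antisymm
  · intro c hc
    let T : Finset (G ⧸ ι.range) := Finset.univ.biUnion fun i : I =>
      (c i).coeff.support.image (QuotientGroup.mk : G → G ⧸ ι.range)
    have hT : ∀ i a, (c i).coeff a ≠ 0 → (QuotientGroup.mk a : G ⧸ ι.range) ∈ T := by
      intro i a ha
      exact Finset.mem_biUnion.2 ⟨i, Finset.mem_univ i,
        Finset.mem_image.2 ⟨a, Finsupp.mem_support_iff.2 ha, rfl⟩⟩
    have h1 : c = ∑ q ∈ T, MonoidAlgebra.of ℤ G q.out •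
        mapPi ι (fun i => pi ℤ ι hι q.out (c i)) := by
      funext i
      rw [Finset.sum_apply]
      exact decomp' ι hι (c i) T (hT i)
    rw [h1]
    refine Submodule.sum_mem _ fun q _ => Submodule.smul_mem _ _ ?_
    have h2 : (fun i => pi ℤ ι hι q.out (c i)) ∈ RM y := by
      rw [mem_RM] at hc ⊢
      have := congrArg (pi ℤ ι hι q.out) hc
      rw [map_sum, map_zero] at this
      rw [← this]
      exact Finset.sum_congr rfl fun i _ => (pi_mul_sub ℤ ι hι _ _ _).symm
    rw [← hS] at h2
    generalize (fun i => pi ℤ ι hι q.out (c i)) = d at h2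
    induction h2 using Submodule.span_induction with
    | mem x hx => exact Submodule.subset_span ⟨x, hx, rfl⟩
    | zero =>
      have : mapPi ι (0 : I → ZG B) = 0 := by
        funext i
        exact map_zero _
      rw [this]
      exact Submodule.zero_mem _
    | add x y _ _ hx hy =>
      have : mapPi ι (x + y) = mapPi ι x + mapPi ι y := by
        funext i
        exact map_add _ _ _
      rw [this]
      exact Submodule.add_mem _ hx hy
    | smul a x _ hx =>
      have : mapPi ι (a • x) = MonoidAlgebra.mapDomainRingHom ℤ ι a • mapPi ι x := by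
        funext i
        exact map_mul _ _ _
      rw [this]
      exact Submodule.smul_mem _ _ hx
  · rw [Submodule.span_le]
    rintro _ ⟨x, hx, rfl⟩
    refine mapPi_mem ι y x ?_
    rw [← hS]
    exact Submodule.subset_span hx

/-- extension by zero -/
noncomputable def ext0 (R : Type) [Ring R] (I J : Type) : (I → R) →ₗ[R] (I ⊕ J → R) where
  toFun c := Sum.elim c 0
  map_add' c d := by
    funext p
    cases p <;> simp
  map_smul' r c := by
    funext p
    cases p <;> simp

theorem sum_elim_RM {I J : Type} [Fintype I] [Fintype J] (y : I → G) (z : J → G)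
    (c : I ⊕ J → ZG G) : c ∈ RM (Sum.elim y z) ↔
      ∑ i, c (Sum.inl i) * (MonoidAlgebra.of ℤ G (y i) - 1) +
      ∑ j, c (Sum.inr j) * (MonoidAlgebra.of ℤ G (z j) - 1) = 0 := by
  rw [mem_RM, Fintype.sum_sum_type]
  rfl

include hι in
theorem star_fg {I J K : Type} [Fintype I] [Fintype J] [Fintype K] (y : I → B)
    (hy : Subgroup.closure (Set.range y) = ⊤) (hB : (RM y).FG) (z : J → G)
    (T : J → K → B) (hcomm : ∀ j k, ι (T j k) * z j = z j * ι (T j k))
    (hstar : ∀ a : J → ZG G, ∑ j, a j * (MonoidAlgebra.of ℤ G (z j) - 1) ∈ IL ℤ (Set.range ι) →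
      ∀ j, a j ∈ IL ℤ (Set.range (fun k => ι (T j k)))) :
    (RM (Sum.elim (fun i => ι (y i)) z)).FG := by
  classical
  obtain ⟨S, hSf, hS⟩ := Submodule.fg_def.1 hB
  have hu : ∀ j k, ∃ u : I → ZG B, fox y u = MonoidAlgebra.of ℤ B (T j k) - 1 := by
    intro j k
    have h1 : MonoidAlgebra.of ℤ B (T j k) - 1 ∈ augI B :=
      Submodule.subset_span ⟨T j k, Set.mem_univ _, rfl⟩
    rw [← range_fox_top y hy] at h1
    exact h1
  choose u hu using hu
  have hu' : ∀ j k, ∑ i, mapPi ι (u j k) i * (MonoidAlgebra.of ℤ G (ι (y i)) - 1) =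
      MonoidAlgebra.of ℤ G (ι (T j k)) - 1 := by
    intro j k
    have := congrArg (MonoidAlgebra.mapDomainRingHom ℤ ι) (hu j k)
    rw [fox_apply, map_sum, map_sub, map_one, mapDomain_of] at this
    rw [← this]
    refine Finset.sum_congr rfl fun i _ => ?_
    rw [map_mul, map_sub, map_one, mapDomain_of]
    rfl
  let κ : J × K → (I ⊕ J → ZG G) := fun p => Sum.elim
    (fun i => -((MonoidAlgebra.of ℤ G (z p.1) - 1) * mapPi ι (u p.1 p.2) i))
    (Pi.single p.1 (MonoidAlgebra.of ℤ G (ι (T p.1 p.2)) - 1))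
  have hκ : ∀ p, κ p ∈ RM (Sum.elim (fun i => ι (y i)) z) := by
    rintro ⟨j, k⟩
    rw [sum_elim_RM]
    have h1 : ∑ i, κ (j, k) (Sum.inl i) * (MonoidAlgebra.of ℤ G (ι (y i)) - 1) =
        -((MonoidAlgebra.of ℤ G (z j) - 1) * (MonoidAlgebra.of ℤ G (ι (T j k)) - 1)) := by
      rw [← hu' j k, Finset.mul_sum, ← Finset.sum_neg_distrib]
      refine Finset.sum_congr rfl fun i _ => ?_
      change -((MonoidAlgebra.of ℤ G (z j) - 1) * mapPi ι (u j k) i) * _ = _
      rw [neg_mul, mul_assoc]
    have h2 : ∑ j', κ (j, k) (Sum.inr j') * (MonoidAlgebra.of ℤ G (z j') - 1) =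
        (MonoidAlgebra.of ℤ G (ι (T j k)) - 1) * (MonoidAlgebra.of ℤ G (z j) - 1) := by
      rw [Finset.sum_eq_single j]
      · change (Pi.single j (MonoidAlgebra.of ℤ G (ι (T j k)) - 1) : J → ZG G) j * _ = _
        rw [Pi.single_eq_same]
      · intro j' _ hj'
        change (Pi.single j (MonoidAlgebra.of ℤ G (ι (T j k)) - 1) : J → ZG G) j' * _ = _
        rw [Pi.single_eq_of_ne hj', zero_mul]
      · intro h
        exact absurd (Finset.mem_univ _) h
    rw [h1, h2, neg_add_eq_zero]
    apply Pool.Agent.W490.DU.comm_sub_one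
    rw [← map_mul, ← map_mul, hcomm]
  rw [Submodule.fg_def]
  refine ⟨Set.range κ ∪ ext0 (ZG G) I J '' (mapPi ι '' S),
    (Set.finite_range κ).union ((hSf.image _).image _), ?_⟩
  apply le_antisymm
  · rw [Submodule.span_le]
    rintro c (⟨p, rfl⟩ | ⟨_, ⟨x, hx, rfl⟩, rfl⟩)
    · exact hκ p
    · change ext0 (ZG G) I J (mapPi ι x) ∈ RM _
      rw [sum_elim_RM]
      have h1 : mapPi ι x ∈ RM (fun i => ι (y i)) := by
        refine mapPi_mem ι y x ?_
        rw [← hS]
        exact Submodule.subset_span hx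
      rw [mem_RM] at h1
      have h2 : ∑ j, ext0 (ZG G) I J (mapPi ι x) (Sum.inr j) *
          (MonoidAlgebra.of ℤ G (z j) - 1) = 0 := by
        refine Finset.sum_eq_zero fun j _ => ?_
        change (0 : ZG G) * _ = 0
        rw [zero_mul]
      rw [h2, add_zero]
      exact h1
  · intro c hc
    have hc0 := hc
    rw [sum_elim_RM] at hc
    have h1 : ∑ j, c (Sum.inr j) * (MonoidAlgebra.of ℤ G (z j) - 1) ∈ IL ℤ (Set.range ι) := by
      have h0 : ∑ j, c (Sum.inr j) * (MonoidAlgebra.of ℤ G (z j) - 1) =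
          -(∑ i, c (Sum.inl i) * (MonoidAlgebra.of ℤ G (ι (y i)) - 1)) :=
        eq_neg_of_add_eq_zero_right hc
      rw [h0]
      refine Submodule.neg_mem _ (Submodule.sum_mem _ fun i _ => ?_)
      exact Submodule.smul_mem _ (c (Sum.inl i)) (Submodule.subset_span ⟨_, ⟨y i, rfl⟩, rfl⟩)
    have h2 := hstar _ h1
    have h3 : ∀ j, ∃ e : K → ZG G, ∑ k, e k * (MonoidAlgebra.of ℤ G (ι (T j k)) - 1) =
        c (Sum.inr j) := by
      intro j
      have := h2 j
      rw [← range_fox] at this
      exact this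
    choose e he using h3
    let N := Submodule.span (ZG G) (Set.range κ ∪ ext0 (ZG G) I J '' (mapPi ι '' S))
    change c ∈ N
    let κ' : I ⊕ J → ZG G := ∑ p : J × K, e p.1 p.2 • κ p
    have h4 : κ' ∈ N := Submodule.sum_mem _ fun p _ => Submodule.smul_mem _ _
      (Submodule.subset_span (Or.inl ⟨p, rfl⟩))
    have h5 : κ' ∈ RM (Sum.elim (fun i => ι (y i)) z) := Submodule.sum_mem _ fun p _ =>
      Submodule.smul_mem _ _ (hκ p)
    have h6 : ∀ j, κ' (Sum.inr j) = c (Sum.inr j) := by
      intro j
      rw [← he j]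
      change (∑ p : J × K, e p.1 p.2 • κ p) (Sum.inr j) = _
      rw [Finset.sum_apply, Fintype.sum_prod_type, Finset.sum_eq_single j]
      · refine Finset.sum_congr rfl fun k _ => ?_
        change e j k * (Pi.single j (MonoidAlgebra.of ℤ G (ι (T j k)) - 1) : J → ZG G) j = _
        rw [Pi.single_eq_same]
      · intro j' _ hj'
        refine Finset.sum_eq_zero fun k _ => ?_
        change e j' k * (Pi.single j' (MonoidAlgebra.of ℤ G (ι (T j' k)) - 1) : J → ZG G) j = _
        rw [Pi.single_eq_of_ne (Ne.symm hj'), mul_zero]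
      · intro h
        exact absurd (Finset.mem_univ _) h
    have h7 : c - κ' ∈ RM (Sum.elim (fun i => ι (y i)) z) := Submodule.sub_mem _ hc0 h5
    have h8 : c - κ' = ext0 (ZG G) I J (fun i => (c - κ') (Sum.inl i)) := by
      funext p
      cases p with
      | inl i => rfl
      | inr j =>
        change c (Sum.inr j) - κ' (Sum.inr j) = 0
        rw [h6, sub_self]
    have h9 : (fun i => (c - κ') (Sum.inl i)) ∈ RM (fun i => ι (y i)) := by
      rw [mem_RM]
      rw [sum_elim_RM] at h7
      have : ∑ j, (c - κ') (Sum.inr j) * (MonoidAlgebra.of ℤ G (z j) - 1) = 0 := by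
        refine Finset.sum_eq_zero fun j _ => ?_
        change (c (Sum.inr j) - κ' (Sum.inr j)) * _ = 0
        rw [h6, sub_self, zero_mul]
      rw [this, add_zero] at h7
      exact h7
    rw [RM_bc ι hι y S hS] at h9
    have h10 : c - κ' ∈ N := by
      rw [h8]
      have h11 := Submodule.mem_map_of_mem (f := ext0 (ZG G) I J) h9
      rw [Submodule.map_span] at h11
      exact Submodule.span_mono Set.subset_union_right h11
    have := Submodule.add_mem _ h10 h4
    rwa [sub_add_cancel] at this

end star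

end Pool.Agent.Helper379_HC
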