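import Pool.Agent.Helper379_HC.Grps

/-!
# The fibre product (MP_3ca9d5_al)
-/

set_option autoImplicit false

namespace Pool.Agent.Helper379_HC

open Pool.Agent.W326.DU Pool.Agent.Y66.HC Pool.Agent.W386

section fib
variable {k : ℕ} {Q : Type} [Group Q] (π : FreeGroup (Fin k) →* Q)

/-- the fibre product -/
abbrev PP : Subgroup (G1 π × FreeGroup (Fin k)) :=
  ((p1 π).comp (MonoidHom.fst (G1 π) (FreeGroup (Fin k)))).eqLocus
    (π.comp (MonoidHom.snd (G1 π) (FreeGroup (Fin k))))

theorem mem_PP (x : G1 π × FreeGroup (Fin k)) : x ∈ PP π ↔ p1 π x.1 = π x.2 := Iff.rfl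

/-- the vertex group -/
def eP : FreeGroup (Fin k) × FreeGroup (Fin k) →* PP π where
  toFun p := ⟨(ofG π (p.1, π p.2), p.2), (mem_PP π _).2 (p1_of π _)⟩
  map_one' := by
    apply Subtype.ext
    apply Prod.ext
    · change ofG π (1, π 1) = 1
      rw [map_one]
      exact map_one _
    · rfl
  map_mul' p q := by
    apply Subtype.ext
    apply Prod.ext
    · change ofG π (p.1 * q.1, π (p.2 * q.2)) = ofG π (p.1, π p.2) * ofG π (q.1, π q.2)
      rw [← map_mul, map_mul π]
      rfl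
    · rfl

/-- the projection to `G₁` -/
def rho : PP π →* G1 π := (MonoidHom.fst (G1 π) (FreeGroup (Fin k))).comp (PP π).subtype

/-- the stable letter -/
def zP : PP π := ⟨(stl π, 1), (mem_PP π _).2 (by rw [map_one]; exact p1_t π)⟩

theorem eP_inj : Function.Injective (eP π) := by
  intro p q h
  have h1 : (ofG π (p.1, π p.2), p.2) = (ofG π (q.1, π q.2), q.2) := congrArg Subtype.val h
  have h2 := ofG_inj π (Prod.ext_iff.1 h1).1
  exact Prod.ext (Prod.ext_iff.1 h2).1 (Prod.ext_iff.1 h1).2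

theorem rho_eP (p : FreeGroup (Fin k) × FreeGroup (Fin k)) :
    rho π (eP π p) = ofG π (p.1, π p.2) := rfl

theorem mem_range_eP (x : PP π) : x ∈ (eP π).range ↔ rho π x ∈ (ofG π).range := by
  constructor
  · rintro ⟨p, rfl⟩
    exact ⟨_, rfl⟩
  · rintro ⟨a, ha⟩
    refine ⟨(a.1, x.1.2), ?_⟩
    apply Subtype.ext
    apply Prod.ext
    · change ofG π (a.1, π x.1.2) = x.1.1
      have h1 : π x.1.2 = a.2 := by
        have := (mem_PP π x.1).1 x.2
        rw [← this]
        change p1 π (rho π x) = a.2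
        rw [← ha, p1_of]
      rw [h1]
      exact ha
    · rfl

/-- the edge group -/
def DP : Subgroup (PP π) := ((Gam π).map (ofG π)).comap (rho π)

theorem DP_le : DP π ≤ (eP π).range := by
  rintro x ⟨a, -, ha⟩
  rw [mem_range_eP]
  exact ⟨a, ha⟩

/-- generators of the vertex group -/
def yF : Fin k ⊕ Fin k → FreeGroup (Fin k) × FreeGroup (Fin k) :=
  Sum.elim (fun i => MonoidHom.inl _ _ (FreeGroup.of i)) (fun i => MonoidHom.inr _ _ (FreeGroup.of i))

theorem closure_yF : Subgroup.closure (Set.range (yF (k := k))) = ⊤ := by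
  rw [eq_top_iff]
  rintro ⟨f, q⟩ -
  have h1 : (f, q) = (MonoidHom.inl (FreeGroup (Fin k)) (FreeGroup (Fin k)) f) *
    (MonoidHom.inr _ (FreeGroup (Fin k)) q) := by simp
  rw [h1]
  refine mul_mem ?_ ?_
  · exact closure_hom _ FreeGroup.of (FreeGroup.closure_range_of _) f _ (fun i =>
      Subgroup.subset_closure ⟨Sum.inl i, rfl⟩)
  · exact closure_hom _ FreeGroup.of (FreeGroup.closure_range_of _) q _ (fun i =>
      Subgroup.subset_closure ⟨Sum.inr i, rfl⟩)

/-- generators of the vertex group -/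
def yP (i : Fin k ⊕ Fin k) : PP π := eP π (yF i)

theorem closure_yP : Subgroup.closure (Set.range (yP π)) = (eP π).range := by
  have h1 : Set.range (yP π) = eP π '' Set.range yF := by
    rw [← Set.range_comp]; rfl
  rw [h1, ← MonoidHom.map_closure, closure_yF, ← MonoidHom.range_eq_map]

/-- generators of the fibre product -/
def yzP : (Fin k ⊕ Fin k) ⊕ Unit → PP π := Sum.elim (yP π) (fun _ => zP π)

theorem closure_yzP (hπ : Function.Surjective π) : Subgroup.closure (Set.range (yzP π)) = ⊤ := by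
  let K := Subgroup.closure (Set.range (yzP π))
  have h1 : (eP π).range ≤ K := by
    rw [← closure_yP]
    apply Subgroup.closure_mono
    rintro _ ⟨i, rfl⟩
    exact ⟨Sum.inl i, rfl⟩
  have h2 : zP π ∈ K := Subgroup.subset_closure ⟨Sum.inr (), rfl⟩
  have h3 : ∀ g : G1 π, ∃ x ∈ K, rho π x = g := by
    intro g
    induction g using HNNExtension.induction_on with
    | of a =>
      obtain ⟨f, hf⟩ := hπ a.2
      refine ⟨eP π (a.1, f), h1 ⟨_, rfl⟩, ?_⟩
      rw [rho_eP, hf]
      rfl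
    | t => exact ⟨zP π, h2, rfl⟩
    | mul x y hx hy =>
      obtain ⟨a, ha, rfl⟩ := hx
      obtain ⟨b, hb, rfl⟩ := hy
      exact ⟨a * b, mul_mem ha hb, map_mul _ _ _⟩
    | inv x hx =>
      obtain ⟨a, ha, rfl⟩ := hx
      exact ⟨a⁻¹, inv_mem ha, map_inv _ _⟩
  rw [eq_top_iff]
  rintro g -
  obtain ⟨x, hx, hxg⟩ := h3 (rho π g)
  have h4 : x⁻¹ * g ∈ (eP π).range := by
    rw [mem_range_eP, map_mul, map_inv, hxg, inv_mul_cancel]
    exact one_mem _
  have := mul_mem hx (h1 h4)
  rwa [mul_inv_cancel_left] at this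

theorem DP_comm (d : PP π) (hd : d ∈ DP π) : d * zP π = zP π * d := by
  obtain ⟨a, ⟨f, hf⟩, ha⟩ := hd
  apply Subtype.ext
  apply Prod.ext
  · change d.1.1 * stl π = stl π * d.1.1
    have h1 : d.1.1 = ofG π (f, π f) := by
      have : ofG π a = d.1.1 := ha
      rw [← this, ← hf]
      rfl
    rw [h1, t_comm]
  · change d.1.2 * 1 = 1 * d.1.2
    rw [mul_one, one_mul]

theorem starP (a : ZG (PP π)) (ha : a * (MonoidAlgebra.of ℤ (PP π) (zP π) - 1) ∈
    IL ℤ (((eP π).range : Subgroup (PP π)) : Set (PP π))) :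
    a ∈ IL ℤ ((DP π : Subgroup (PP π)) : Set (PP π)) := by
  have h1 := mapDomain_IL (rho π) _ _ ha
  rw [map_mul, map_sub, map_one, mapDomain_of] at h1
  have h2 := starG π (MonoidAlgebra.mapDomainRingHom ℤ (rho π) a) (by
    refine IL_mono ?_ h1
    rintro _ ⟨_, ⟨p, rfl⟩, rfl⟩
    exact ⟨_, rfl⟩)
  exact IL_comap (rho π) ((Gam π).map (ofG π)) a h2

theorem DP_fg (h : (RM (yzP π)).FG) : (DP π).FG :=
  fg_of_RM (eP π).range (DP π) (yP π) (closure_yP π) (zP π) (DP_le π) (DP_comm π) (starP π) h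

/-- the fibre product of `π` with itself -/
def D' : Subgroup (FreeGroup (Fin k) × FreeGroup (Fin k)) :=
  (π.comp (MonoidHom.fst _ _)).eqLocus (π.comp (MonoidHom.snd _ _))

theorem mem_D' (x : FreeGroup (Fin k) × FreeGroup (Fin k)) : x ∈ D' π ↔ π x.1 = π x.2 := Iff.rfl

theorem map_D' : (D' π).map (eP π) = DP π := by
  ext x
  constructor
  · rintro ⟨p, hp, rfl⟩
    have hp' : π p.1 = π p.2 := hp
    refine ⟨(p.1, π p.2), ?_, rfl⟩
    exact (mem_Gam π _).2 hp'
  · intro hx
    obtain ⟨p, rfl⟩ := DP_le π hx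
    refine ⟨p, ?_, rfl⟩
    obtain ⟨a, ha, hap⟩ := hx
    have h1 : a = (p.1, π p.2) := ofG_inj π hap
    have h2 := (mem_Gam π _).1 ha
    rw [h1] at h2
    exact h2

theorem D'_fg (h : (DP π).FG) : (D' π).FG := by
  rw [← map_D', ← Group.fg_iff_subgroup_fg] at h
  rw [← Group.fg_iff_subgroup_fg]
  exact Group.fg_of_surjective (f := ((D' π).equivMapOfInjective (eP π) (eP_inj π)).symm.toMonoidHom)
    (MulEquiv.surjective _)

theorem ker_of_D'_fg (h : (D' π).FG) :
    ∃ S : Set (FreeGroup (Fin k)), S.Finite ∧ Subgroup.normalClosure S = π.ker := by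
  classical
  obtain ⟨T, hT⟩ := h
  let S : Set (FreeGroup (Fin k)) := (fun p : FreeGroup (Fin k) × FreeGroup (Fin k) =>
    p.1⁻¹ * p.2) '' (T : Set (FreeGroup (Fin k) × FreeGroup (Fin k)))
  have hTD : ∀ p ∈ T, π p.1 = π p.2 := by
    intro p hp
    have : p ∈ D' π := by
      rw [← hT]
      exact Subgroup.subset_closure hp
    exact this
  refine ⟨S, T.finite_toSet.image _, le_antisymm ?_ ?_⟩
  · apply Subgroup.normalClosure_le_normal
    rintro _ ⟨p, hp, rfl⟩
    change π (p.1⁻¹ * p.2) = 1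
    rw [map_mul, map_inv, hTD p hp, inv_mul_cancel]
  · let N := Subgroup.normalClosure S
    let q : FreeGroup (Fin k) →* FreeGroup (Fin k) ⧸ N := QuotientGroup.mk' N
    let E : Subgroup (FreeGroup (Fin k) × FreeGroup (Fin k)) :=
      (q.comp (MonoidHom.fst _ _)).eqLocus (q.comp (MonoidHom.snd _ _))
    have hE : D' π ≤ E := by
      rw [← hT, Subgroup.closure_le]
      intro p hp
      change q p.1 = q p.2
      exact QuotientGroup.eq.2 (Subgroup.subset_normalClosure ⟨p, hp, rfl⟩)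
    intro x hx
    have h1 : ((1 : FreeGroup (Fin k)), x) ∈ D' π := by
      rw [mem_D']
      change π 1 = π x
      rw [map_one, MonoidHom.mem_ker.1 hx]
    have h2 : q 1 = q x := hE h1
    have h3 := QuotientGroup.eq.1 h2
    simpa using h3

end fib

end Pool.Agent.Helper379_HC
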