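import Pool.Agent.Y66.HC.Defs

/-!
# The graph (MP_3ca9d5_al)

The face poset of the regular cell complex with vertices `0, ..., 4`, the ten edges of the
complete graph `K₅`, and the six pentagons
`01234, 01342, 01423, 02143, 02314, 03124` (one orbit of Hamiltonian cycles under `A₅`).
The vertices of the graph are `0..4` (vertices), `5..14` (the edges
`01, 02, 03, 04, 12, 13, 14, 23, 24, 34`), `15..20` (the pentagons, in the order above).
-/

set_option autoImplicit false

namespace Pool.Agent.Helper379_HC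

/-- adjacency table (bit masks) -/
def rowsG : List ℕ := [2064864, 2068000, 2077248, 2086016, 2091264, 229379, 851973, 1441801,
  1605649, 1343494, 1638410, 917522, 688140, 1245204, 360472, 21311, 25727, 14527, 19167, 7519,
  10143]

/-- adjacency, Boolean -/
def adB (a b : Fin 21) : Bool := (rowsG.getD a.val 0).testBit b.val

/-- adjacency -/
def adG (a b : Fin 21) : Prop := adB a b = true

instance : DecidableRel adG := fun a b => inferInstanceAs (Decidable (adB a b = true))

/-- the 80 edges (sorted pairs) -/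
def eG : Fin 80 → Fin 21 × Fin 21 :=
  ![(0, 5), (0, 6), (0, 7), (0, 8), (0, 15), (0, 16), (0, 17), (0, 18), (0, 19), (0, 20),
    (1, 5), (1, 9), (1, 10), (1, 11), (1, 15), (1, 16), (1, 17), (1, 18), (1, 19), (1, 20),
    (2, 6), (2, 9), (2, 12), (2, 13), (2, 15), (2, 16), (2, 17), (2, 18), (2, 19), (2, 20),
    (3, 7), (3, 10), (3, 12), (3, 14), (3, 15), (3, 16), (3, 17), (3, 18), (3, 19), (3, 20),
    (4, 8), (4, 11), (4, 13), (4, 14), (4, 15), (4, 16), (4, 17), (4, 18), (4, 19), (4, 20),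
    (5, 15), (5, 16), (5, 17), (6, 16), (6, 18), (6, 19), (7, 17), (7, 18), (7, 20), (8, 15),
    (8, 19), (8, 20), (9, 15), (9, 18), (9, 20), (10, 16), (10, 19), (10, 20), (11, 17),
    (11, 18), (11, 19), (12, 15), (12, 17), (12, 19), (13, 16), (13, 17), (13, 20), (14, 15),
    (14, 16), (14, 18)]

/-- the 60 triangles (sorted triples) -/
def tG : Fin 60 → Fin 21 × Fin 21 × Fin 21 :=
  ![(0, 5, 15), (0, 5, 16), (0, 5, 17), (0, 6, 16), (0, 6, 18), (0, 6, 19), (0, 7, 17),
    (0, 7, 18), (0, 7, 20), (0, 8, 15), (0, 8, 19), (0, 8, 20), (1, 5, 15), (1, 5, 16),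
    (1, 5, 17), (1, 9, 15), (1, 9, 18), (1, 9, 20), (1, 10, 16), (1, 10, 19), (1, 10, 20),
    (1, 11, 17), (1, 11, 18), (1, 11, 19), (2, 6, 16), (2, 6, 18), (2, 6, 19), (2, 9, 15),
    (2, 9, 18), (2, 9, 20), (2, 12, 15), (2, 12, 17), (2, 12, 19), (2, 13, 16), (2, 13, 17),
    (2, 13, 20), (3, 7, 17), (3, 7, 18), (3, 7, 20), (3, 10, 16), (3, 10, 19), (3, 10, 20),
    (3, 12, 15), (3, 12, 17), (3, 12, 19), (3, 14, 15), (3, 14, 16), (3, 14, 18), (4, 8, 15),
    (4, 8, 19), (4, 8, 20), (4, 11, 17), (4, 11, 18), (4, 11, 19), (4, 13, 16), (4, 13, 17),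
    (4, 13, 20), (4, 14, 15), (4, 14, 16), (4, 14, 18)]

end Pool.Agent.Helper379_HC
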