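import Pool.Agent.Helper379_HC.NonFP

/-!
# The groups of the counterexample (MP_3ca9d5_al)
-/

set_option autoImplicit false

namespace Pool.Agent.Helper379_HC

open Pool.Agent.W326.DU Pool.Agent.Y66.HC Pool.Agent.W386

section groups
variable {k : ℕ} {Q : Type} [Group Q] (π : FreeGroup (Fin k) →* Q)

/-- the graph of `π` -/
def Gam : Subgroup (FreeGroup (Fin k) × Q) :=
  (MonoidHom.prod (MonoidHom.id (FreeGroup (Fin k))) π).range

/-- the HNN extension of `F × Q` whose stable letter centralises the graph of `π` -/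
abbrev G1 : Type := HNNExtension (FreeGroup (Fin k) × Q) (Gam π) (Gam π) (MulEquiv.refl _)

/-- the inclusion of `F × Q` -/
def ofG : FreeGroup (Fin k) × Q →* G1 π := HNNExtension.of

/-- the stable letter -/
def stl : G1 π := HNNExtension.t

theorem ofG_inj : Function.Injective (ofG π) := HNNExtension.of_injective (φ := MulEquiv.refl _)

theorem mem_Gam (p : FreeGroup (Fin k) × Q) : p ∈ Gam π ↔ π p.1 = p.2 := by
  constructor
  · rintro ⟨f, rfl⟩
    rfl
  · intro h
    exact ⟨p.1, Prod.ext rfl h⟩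

theorem t_comm (f : FreeGroup (Fin k)) : stl π * ofG π (f, π f) = ofG π (f, π f) * stl π :=
  HNNExtension.t_mul_of (φ := MulEquiv.refl (Gam π)) ⟨(f, π f), ⟨f, rfl⟩⟩

/-- the projection to `Q` -/
def p1 : G1 π →* Q := HNNExtension.lift (MonoidHom.snd (FreeGroup (Fin k)) Q) 1 (fun a => by simp)

theorem p1_of (a : FreeGroup (Fin k) × Q) : p1 π (ofG π a) = a.2 := HNNExtension.lift_of _ _ _ _

theorem p1_t : p1 π (stl π) = 1 := HNNExtension.lift_t _ _ _

theorem p1_surj : Function.Surjective (p1 π) := fun q => ⟨ofG π (1, q), p1_of π _⟩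

/-- the kernel of the projection is generated by `F` and the stable letter -/
def K1 : Subgroup (G1 π) :=
  Subgroup.closure (Set.range (fun i : Fin k => ofG π (FreeGroup.of i, 1)) ∪ {stl π})

theorem of_fst_mem (f : FreeGroup (Fin k)) : ofG π (f, 1) ∈ K1 π := by
  induction f using FreeGroup.induction_on with
  | C1 => exact (congrArg (· ∈ K1 π) (map_one (ofG π))).mpr (one_mem _)
  | of i => exact Subgroup.subset_closure (Or.inl ⟨i, rfl⟩)
  | inv_of i h =>
    have : ofG π ((FreeGroup.of i)⁻¹, 1) = (ofG π (FreeGroup.of i, 1))⁻¹ := by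
      rw [← map_inv]; simp
    rw [this]
    exact inv_mem h
  | mul f g hf hg =>
    have : ofG π (f * g, 1) = ofG π (f, 1) * ofG π (g, 1) := by
      rw [← map_mul]; simp
    rw [this]
    exact mul_mem hf hg

theorem t_mem : stl π ∈ K1 π := Subgroup.subset_closure (Or.inr rfl)

theorem K1_norm (hπ : Function.Surjective π) (q : Q) (g : G1 π) (hg : g ∈ K1 π) :
    ofG π (1, q) * g * (ofG π (1, q))⁻¹ ∈ K1 π := by
  induction hg using Subgroup.closure_induction with
  | mem x hx =>
    rcases hx with ⟨i, rfl⟩ | hx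
    · have : ofG π (1, q) * ofG π (FreeGroup.of i, 1) * (ofG π (1, q))⁻¹ =
          ofG π (FreeGroup.of i, 1) := by
        rw [mul_inv_eq_iff_eq_mul, ← map_mul, ← map_mul]
        simp
      simp only [this]
      exact of_fst_mem π _
    · rw [Set.mem_singleton_iff.1 hx]
      obtain ⟨f, rfl⟩ := hπ q
      have h1 : ofG π (1, π f) = ofG π (f⁻¹, 1) * ofG π (f, π f) := by
        rw [← map_mul]; simp
      have h2 : ofG π (1, π f) * stl π * (ofG π (1, π f))⁻¹ =
          ofG π (f⁻¹, 1) * stl π * (ofG π (f⁻¹, 1))⁻¹ := by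
        rw [h1, mul_assoc (ofG π (f⁻¹, 1)), ← t_comm]
        group
      rw [h2]
      exact mul_mem (mul_mem (of_fst_mem π _) (t_mem π)) (inv_mem (of_fst_mem π _))
  | one => simp
  | mul x y _ _ hx hy =>
    have : ofG π (1, q) * (x * y) * (ofG π (1, q))⁻¹ =
        (ofG π (1, q) * x * (ofG π (1, q))⁻¹) * (ofG π (1, q) * y * (ofG π (1, q))⁻¹) := by
      group
    rw [this]
    exact mul_mem hx hy
  | inv x _ hx =>
    have : ofG π (1, q) * x⁻¹ * (ofG π (1, q))⁻¹ =
        (ofG π (1, q) * x * (ofG π (1, q))⁻¹)⁻¹ := by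
      group
    rw [this]
    exact inv_mem hx

theorem K1_key (hπ : Function.Surjective π) (g : G1 π) :
    g * (ofG π (1, p1 π g))⁻¹ ∈ K1 π := by
  induction g using HNNExtension.induction_on with
  | of a =>
    change ofG π a * (ofG π (1, p1 π (ofG π a)))⁻¹ ∈ K1 π
    rw [p1_of, ← map_inv, ← map_mul]
    have : a * (1, a.2)⁻¹ = (a.1, 1) := by
      ext <;> simp
    rw [this]
    exact of_fst_mem π _
  | t =>
    change stl π * (ofG π (1, p1 π (stl π)))⁻¹ ∈ K1 π
    rw [p1_t]
    have : ofG π (1, 1) = 1 := map_one _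
    rw [this, inv_one, mul_one]
    exact t_mem π
  | mul x y hx hy =>
    have h1 : ofG π (1, p1 π (x * y)) = ofG π (1, p1 π x) * ofG π (1, p1 π y) := by
      rw [← map_mul, map_mul (p1 π)]; simp
    have h2 : x * y * (ofG π (1, p1 π (x * y)))⁻¹ =
        x * (ofG π (1, p1 π x))⁻¹ *
        (ofG π (1, p1 π x) * (y * (ofG π (1, p1 π y))⁻¹) * (ofG π (1, p1 π x))⁻¹) := by
      rw [h1]; group
    rw [h2]
    exact mul_mem hx (K1_norm π hπ _ _ hy)
  | inv x hx =>
    have h1 : ofG π (1, p1 π x⁻¹) = (ofG π (1, p1 π x))⁻¹ := by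
      rw [← map_inv, map_inv (p1 π)]; simp
    have h2 : ofG π (1, (p1 π x)⁻¹) = (ofG π (1, p1 π x))⁻¹ := by
      rw [← map_inv (ofG π)]; simp
    have h3 : x⁻¹ * (ofG π (1, p1 π x⁻¹))⁻¹ =
        (ofG π (1, (p1 π x)⁻¹) * (x * (ofG π (1, p1 π x))⁻¹) * (ofG π (1, (p1 π x)⁻¹))⁻¹)⁻¹ := by
      rw [h1, h2]; group
    rw [h3]
    exact inv_mem (K1_norm π hπ _ _ hx)

theorem ker_fg (hπ : Function.Surjective π) : Group.FG (p1 π).ker := by
  rw [Group.fg_iff_subgroup_fg]
  have h1 : (p1 π).ker = K1 π := by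
    apply le_antisymm
    · intro g hg
      have h := K1_key π hπ g
      rw [MonoidHom.mem_ker.1 hg] at h
      have : ofG π (1, 1) = 1 := map_one _
      rwa [this, inv_one, mul_one] at h
    · rw [K1, Subgroup.closure_le]
      rintro g (⟨i, rfl⟩ | hg)
      · exact MonoidHom.mem_ker.2 (p1_of π _)
      · rw [Set.mem_singleton_iff.1 hg]
        exact MonoidHom.mem_ker.2 (p1_t π)
  rw [h1]
  rw [Subgroup.fg_iff]
  exact ⟨_, rfl, (Set.finite_range _).union (Set.finite_singleton _)⟩

/-! ### `G₁` is of type `FP_2` -/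

/-- generators of `F × Q` -/
def yB : Fin k ⊕ Fin k → FreeGroup (Fin k) × Q :=
  Sum.elim (fun i => MonoidHom.inr (FreeGroup (Fin k)) Q (π (FreeGroup.of i)))
    (fun i => (FreeGroup.of i, 1))

theorem closure_pi (hπ : Function.Surjective π) :
    Subgroup.closure (Set.range fun i : Fin k => π (FreeGroup.of i)) = ⊤ := by
  have h1 : (Set.range fun i : Fin k => π (FreeGroup.of i)) =
      π '' Set.range (FreeGroup.of : Fin k → FreeGroup (Fin k)) := by
    rw [← Set.range_comp]; rfl
  rw [h1, ← MonoidHom.map_closure, FreeGroup.closure_range_of, ← MonoidHom.range_eq_map,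
    MonoidHom.range_eq_top]
  exact hπ

theorem closure_hom {A C : Type} [Group A] [Group C] {I : Type} (f : A →* C) (x : I → A)
    (hx : Subgroup.closure (Set.range x) = ⊤) (a : A) (L : Subgroup C) (hL : ∀ i, f (x i) ∈ L) :
    f a ∈ L := by
  have h1 : a ∈ Subgroup.closure (Set.range x) := by rw [hx]; exact Subgroup.mem_top _
  have h2 : Subgroup.closure (Set.range x) ≤ L.comap f := by
    rw [Subgroup.closure_le]
    rintro _ ⟨i, rfl⟩
    exact hL i
  exact h2 h1

theorem closure_yB (hπ : Function.Surjective π) : Subgroup.closure (Set.range (yB π)) = ⊤ := by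
  rw [eq_top_iff]
  rintro ⟨f, q⟩ -
  have h1 : (f, q) = (MonoidHom.inl (FreeGroup (Fin k)) Q f) * (MonoidHom.inr _ Q q) := by simp
  rw [h1]
  refine mul_mem ?_ ?_
  · exact closure_hom _ FreeGroup.of (FreeGroup.closure_range_of _) f _ (fun i =>
      Subgroup.subset_closure ⟨Sum.inr i, rfl⟩)
  · exact closure_hom _ _ (closure_pi π hπ) q _ (fun i =>
      Subgroup.subset_closure ⟨Sum.inl i, rfl⟩)

theorem mapDomain_IL {A C : Type} [Group A] [Group C] (f : A →* C) (X : Set A) (x : ZG A)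
    (hx : x ∈ IL ℤ X) : MonoidAlgebra.mapDomainRingHom ℤ f x ∈ IL ℤ (f '' X) :=
  Pool.Agent.W571.DU.BC.map_mem ℤ f X x hx

theorem RM_FQ (hπ : Function.Surjective π)
    (hQ : (RM (fun i : Fin k => π (FreeGroup.of i))).FG) : (RM (yB π)).FG := by
  refine star_fg (MonoidHom.inr (FreeGroup (Fin k)) Q) (fun a b h => (Prod.ext_iff.1 h).2)
    (fun i : Fin k => π (FreeGroup.of i)) (closure_pi π hπ) hQ
    (fun i : Fin k => ((FreeGroup.of i, 1) : FreeGroup (Fin k) × Q))
    (fun _ i => π (FreeGroup.of i)) ?_ ?_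
  · intro j i
    ext <;> simp
  · intro a ha j
    -- project to the free group
    have h1 := mapDomain_IL (MonoidHom.fst (FreeGroup (Fin k)) Q) _ _ ha
    have h2 : IL ℤ ((MonoidHom.fst (FreeGroup (Fin k)) Q) ''
        Set.range (MonoidHom.inr (FreeGroup (Fin k)) Q)) = ⊥ := by
      unfold IL
      rw [Submodule.span_eq_bot]
      rintro _ ⟨_, ⟨_, ⟨q, rfl⟩, rfl⟩, rfl⟩
      simp [MonoidAlgebra.one_def]
    rw [h2, Submodule.mem_bot, map_sum] at h1
    have h3 : (fun j => MonoidAlgebra.mapDomainRingHom ℤ (MonoidHom.fst (FreeGroup (Fin k)) Q)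
        (a j)) = 0 := by
      apply fox_free
      rw [fox_apply, ← h1]
      refine Finset.sum_congr rfl fun i _ => ?_
      rw [map_mul, map_sub, map_one, mapDomain_of]
      rfl
    have h4 : a j ∈ IL ℤ (((⊥ : Subgroup (FreeGroup (Fin k))).comap
        (MonoidHom.fst (FreeGroup (Fin k)) Q) : Subgroup _) : Set (FreeGroup (Fin k) × Q)) := by
      apply IL_comap
      have := congrFun h3 j
      change MonoidAlgebra.mapDomainRingHom ℤ (MonoidHom.fst (FreeGroup (Fin k)) Q) (a j) = 0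
        at this
      rw [this]
      exact Submodule.zero_mem _
    refine Pool.Agent.W490.DU.IL_le ℤ ?_ h4
    rintro ⟨f, q⟩ hf
    have hf' : f = 1 := hf
    subst hf'
    exact closure_hom (MonoidHom.inr (FreeGroup (Fin k)) Q) _ (closure_pi π hπ) q _ (fun i =>
      Subgroup.subset_closure ⟨i, rfl⟩)

/-- generators of `G₁` -/
def yG : (Fin k ⊕ Fin k) ⊕ Unit → G1 π := Sum.elim (fun i => ofG π (yB π i)) (fun _ => stl π)

theorem closure_yG (hπ : Function.Surjective π) : Subgroup.closure (Set.range (yG π)) = ⊤ := by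
  rw [eq_top_iff]
  rintro g -
  induction g using HNNExtension.induction_on with
  | of a =>
    exact closure_hom (ofG π) _ (closure_yB π hπ) a _ (fun i =>
      Subgroup.subset_closure ⟨Sum.inl i, rfl⟩)
  | t => exact Subgroup.subset_closure ⟨Sum.inr (), rfl⟩
  | mul x y hx hy => exact mul_mem hx hy
  | inv x hx => exact inv_mem hx

theorem starG (a : ZG (G1 π)) (ha : a * (MonoidAlgebra.of ℤ (G1 π) (stl π) - 1) ∈
    IL ℤ (Set.range (ofG π))) : a ∈ IL ℤ (ofG π '' (Gam π : Set (FreeGroup (Fin k) × Q))) :=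
  Pool.Agent.W335.DU.HN.th ℤ (FreeGroup (Fin k) × Q) (Gam π) (Gam π) (MulEquiv.refl _) a ha

theorem RM_G1 (hπ : Function.Surjective π)
    (hQ : (RM (fun i : Fin k => π (FreeGroup.of i))).FG) : (RM (yG π)).FG := by
  refine star_fg (ofG π) (ofG_inj π) (yB π) (closure_yB π hπ) (RM_FQ π hπ hQ)
    (fun _ : Unit => stl π) (fun _ i => (FreeGroup.of i, π (FreeGroup.of i))) ?_ ?_
  · intro _ i
    exact (t_comm π _).symm
  · intro a ha j
    simp only [Finset.univ_unique, PUnit.default_eq_unit, Finset.sum_singleton] at ha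
    have h1 := starG π (a ()) ha
    refine Pool.Agent.W490.DU.IL_le ℤ ?_ h1
    rintro _ ⟨_, ⟨f, rfl⟩, rfl⟩
    exact closure_hom ((ofG π).comp (MonoidHom.prod (MonoidHom.id (FreeGroup (Fin k))) π))
      FreeGroup.of (FreeGroup.closure_range_of _) f _ (fun i =>
        Subgroup.subset_closure ⟨i, rfl⟩)

end groups

end Pool.Agent.Helper379_HC
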