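import Pool.Agent.Helper379_HC.Fib

/-!
# Assembly (MP_3ca9d5_al)
-/

set_option autoImplicit false

namespace Pool.Agent.Helper379_HC

open Pool.Agent.W326.DU Pool.Agent.Y66.HC Pool.Agent.W386

theorem q_fg {Q : Type} [Group Q] (h : (augI Q).FG) : Group.FG Q := by
  classical
  obtain ⟨S, hSf, hS⟩ := Submodule.fg_def.1 h
  have h2 : ∀ c : S, ∃ T : Finset Q, (T : Set Q) ⊆ Set.univ ∧ (c : ZG Q) ∈ IL ℤ (T : Set Q) := by
    intro c
    refine IL_finite ?_
    change (c : ZG Q) ∈ augI Q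
    rw [← hS]
    exact Submodule.subset_span c.2
  choose T _ hT' using h2
  have : Finite S := hSf
  have := Fintype.ofFinite S
  let U : Finset Q := Finset.univ.biUnion T
  have h3 : augI Q ≤ IL ℤ (U : Set Q) := by
    rw [← hS, Submodule.span_le]
    intro x hx
    refine IL_mono ?_ (hT' ⟨x, hx⟩)
    intro g hg
    exact Finset.mem_coe.2 (Finset.mem_biUnion.2 ⟨⟨x, hx⟩, Finset.mem_univ _, hg⟩)
  refine ⟨U, ?_⟩
  rw [eq_top_iff]
  rintro q -
  have h4 : MonoidAlgebra.of ℤ Q q - 1 ∈ IL ℤ (U : Set Q) :=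
    h3 (Submodule.subset_span ⟨q, Set.mem_univ _, rfl⟩)
  rw [IL_closure] at h4
  exact mem_of_sub_mem_IL _ _ h4

theorem exists_pi {Q : Type} [Group Q] (h : Group.FG Q) :
    ∃ (k : ℕ) (π : FreeGroup (Fin k) →* Q), Function.Surjective π := by
  obtain ⟨α, hα, φ, hφ⟩ := Group.fg_iff_exists_freeGroup_hom_surjective_finite.1 h
  obtain ⟨n, ⟨e⟩⟩ := Finite.exists_equiv_fin α
  exact ⟨n, φ.comp (FreeGroup.freeGroupCongr e.symm).toMonoidHom,
    hφ.comp (FreeGroup.freeGroupCongr e.symm).surjective⟩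

/-- the counterexample -/
theorem counter (br1 : PropBr1) (br2 : PropBr2) (q3 : PropQ3) (hol : PropHol)
    {V J : Type} [Fintype V] [Group J] (ad : V → V → Prop) (γ : V → V → J) (l : ℕ) (p : ℕ → V)
    (hg : GrData ad γ l p) :
    ∃ (Q : Type) (_ : Group Q) (k : ℕ) (π : FreeGroup (Fin k) →* Q), Function.Surjective π ∧
      FPc 3 Q ∧ FPc 2 (FreeGroup (Fin k)) ∧ FPc 2 (G1 π) ∧ ¬ FPc 2 (PP π) := by
  have hgr : GrH ad := ⟨hg.symm, hg.irr, hg.k4, hg.acyc, ⟨p 0⟩⟩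
  let χ : RAAG ad →* Multiplicative ℤ := PresentedGroup.toGroup
    (f := fun _ => Multiplicative.ofAdd (1 : ℤ)) (by
      rintro r ⟨a, b, -, rfl⟩
      simp)
  have hχ : ∀ v, χ (gen ad v) = Multiplicative.ofAdd 1 := fun v =>
    PresentedGroup.toGroup.of _
  have h3 : FPs (ZG χ.ker) 3 (augI χ.ker) := q3 V ad hgr χ hχ
  have h2 : FPs (ZG χ.ker) 2 (augI χ.ker) := FPs.mono h3
  have h1 : FPs (ZG χ.ker) 1 (augI χ.ker) := FPs.mono h2
  have hfg : Group.FG χ.ker := q_fg (Module.Finite.iff_fg.1 (FPs_one_iff.1 h1))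
  obtain ⟨k, π, hπ⟩ := exists_pi hfg
  have hRQ : (RM (fun i : Fin k => π (FreeGroup.of i))).FG :=
    rm_fg_of_FPs _ (closure_pi π hπ) h2
  refine ⟨χ.ker, inferInstance, k, π, hπ, br1 _ 3 h3, br1 _ 2 ?_, br1 _ 2 ?_, ?_⟩
  · refine FPs_of_rm_fg FreeGroup.of (FreeGroup.closure_range_of _) ?_
    rw [free_RM]
    exact Submodule.fg_bot
  · exact FPs_of_rm_fg (yG π) (closure_yG π hπ) (RM_G1 π hπ hRQ)
  · intro hP
    have hP2 : FPs (ZG (PP π)) 2 (augI (PP π)) := br2 _ 2 hP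
    have hRP : (RM (yzP π)).FG := rm_fg_of_FPs _ (closure_yzP π hπ) hP2
    obtain ⟨S, hSf, hS⟩ := ker_of_D'_fg π (D'_fg π (DP_fg π hRP))
    refine hol V J ad γ l p hg χ hχ k (χ.ker.subtype.comp π) ?_ S hSf ?_
    · rw [MonoidHom.range_comp, MonoidHom.range_eq_top.2 hπ, ← MonoidHom.range_eq_map,
        Subgroup.range_subtype]
    · rw [hS]
      ext x
      rw [MonoidHom.mem_ker, MonoidHom.mem_ker]
      constructor
      · intro h
        change ((π x : χ.ker) : RAAG ad) = 1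
        rw [h]
        rfl
      · intro h
        exact Subtype.ext h

end Pool.Agent.Helper379_HC
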