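import Pool.Agent.Helper379_HC.Ext

/-!
# Edge groups are finitely generated if the relation module is (MP_3ca9d5_al)
-/

set_option autoImplicit false

namespace Pool.Agent.Helper379_HC

open Pool.Agent.W326.DU Pool.Agent.Y66.HC Pool.Agent.W386

variable {G : Type} [Group G]

theorem IL_finite {D : Set G} {x : ZG G} (hx : x ∈ IL ℤ D) :
    ∃ T : Finset G, (T : Set G) ⊆ D ∧ x ∈ IL ℤ (T : Set G) := by
  classical
  unfold IL at hx
  obtain ⟨S, hS, hx⟩ := Submodule.mem_span_finite_of_mem_span hx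
  obtain ⟨T, hT, rfl⟩ := Finset.subset_set_image_iff.1 hS
  refine ⟨T, hT, ?_⟩
  rw [Finset.coe_image] at hx
  exact hx

theorem IL_mono {X Y : Set G} (h : X ⊆ Y) : IL ℤ X ≤ IL ℤ Y :=
  Submodule.span_mono (Set.image_mono h)

theorem fg_of_RM {I : Type} [Fintype I] (B D : Subgroup G) (y : I → G)
    (hy : Subgroup.closure (Set.range y) = B) (z : G) (hD : D ≤ B)
    (hcomm : ∀ d ∈ D, d * z = z * d)
    (hstar : ∀ a : ZG G, a * (MonoidAlgebra.of ℤ G z - 1) ∈ IL ℤ (B : Set G) →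
      a ∈ IL ℤ (D : Set G))
    (hRM : (RM (Sum.elim y (fun _ : Unit => z))).FG) : D.FG := by
  classical
  obtain ⟨S, hSf, hS⟩ := Submodule.fg_def.1 hRM
  have h1 : ∀ c ∈ RM (Sum.elim y (fun _ : Unit => z)), c (Sum.inr ()) ∈ IL ℤ (D : Set G) := by
    intro c hc
    rw [sum_elim_RM] at hc
    simp only [Finset.univ_unique, PUnit.default_eq_unit, Finset.sum_singleton] at hc
    apply hstar
    have h0 : c (Sum.inr ()) * (MonoidAlgebra.of ℤ G z - 1) =
        -(∑ i, c (Sum.inl i) * (MonoidAlgebra.of ℤ G (y i) - 1)) :=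
      eq_neg_of_add_eq_zero_right hc
    rw [h0]
    refine Submodule.neg_mem _ (Submodule.sum_mem _ fun i _ => ?_)
    refine Submodule.smul_mem _ (c (Sum.inl i)) (Submodule.subset_span ⟨_, ?_, rfl⟩)
    rw [← hy]
    exact Subgroup.subset_closure ⟨i, rfl⟩
  have h2 : ∀ c : S, ∃ T : Finset G, (T : Set G) ⊆ D ∧
      (c : I ⊕ Unit → ZG G) (Sum.inr ()) ∈ IL ℤ (T : Set G) := by
    intro c
    refine IL_finite (h1 _ ?_)
    rw [← hS]
    exact Submodule.subset_span c.2
  choose T hT hT' using h2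
  have : Finite S := hSf
  have := Fintype.ofFinite S
  let U : Finset G := Finset.univ.biUnion T
  have hU : (U : Set G) ⊆ D := by
    intro g hg
    obtain ⟨c, -, hc⟩ := Finset.mem_biUnion.1 (Finset.mem_coe.1 hg)
    exact hT c hc
  have h3 : ∀ c ∈ RM (Sum.elim y (fun _ : Unit => z)), c (Sum.inr ()) ∈ IL ℤ (U : Set G) := by
    intro c hc
    rw [← hS] at hc
    induction hc using Submodule.span_induction with
    | mem x hx =>
      refine IL_mono ?_ (hT' ⟨x, hx⟩)
      intro g hg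
      exact Finset.mem_coe.2 (Finset.mem_biUnion.2 ⟨⟨x, hx⟩, Finset.mem_univ _, hg⟩)
    | zero => exact Submodule.zero_mem _
    | add x y _ _ hx hy => exact Submodule.add_mem _ hx hy
    | smul a x _ hx => exact Submodule.smul_mem _ _ hx
  refine ⟨U, le_antisymm ((Subgroup.closure_le _).2 hU) ?_⟩
  intro d hd
  have h4 : MonoidAlgebra.of ℤ G d - 1 ∈ IL ℤ (Set.range y) := by
    apply Pool.Agent.W490.DU.of_sub_mem_IL
    rw [hy]
    exact hD hd
  rw [← range_fox] at h4
  obtain ⟨u, hu⟩ := h4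
  rw [fox_apply] at hu
  have h5 : (Sum.elim (fun i => -((MonoidAlgebra.of ℤ G z - 1) * u i))
      (fun _ => MonoidAlgebra.of ℤ G d - 1) : I ⊕ Unit → ZG G) ∈
      RM (Sum.elim y (fun _ : Unit => z)) := by
    rw [sum_elim_RM]
    simp only [Sum.elim_inl, Sum.elim_inr, Finset.univ_unique, Finset.sum_singleton, neg_mul,
      Finset.sum_neg_distrib, mul_assoc]
    rw [← Finset.mul_sum, hu, neg_add_eq_zero]
    apply Pool.Agent.W490.DU.comm_sub_one
    rw [← map_mul, ← map_mul, hcomm d hd]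
  have h6 := h3 _ h5
  change MonoidAlgebra.of ℤ G d - 1 ∈ IL ℤ (U : Set G) at h6
  rw [IL_closure] at h6
  exact mem_of_sub_mem_IL _ _ h6

end Pool.Agent.Helper379_HC
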