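import Pool.Agent.Helper379_HC.Stmts
import Pool.Agent.W326.DU.Aug
import Pool.Agent.W335.DU.HN
import Pool.Agent.W571.DU.BC
import Pool.Agent.W490.DU.Grp

/-!
# Relation modules (MP_3ca9d5_al)
-/

set_option autoImplicit false

namespace Pool.Agent.Helper379_HC

open Pool.Agent.W326.DU Pool.Agent.Y66.HC Pool.Agent.W386

section basic
variable {G : Type} [Group G]

theorem fox_apply {ι : Type} [Fintype ι] (x : ι → G) (c : ι → ZG G) :
    fox x c = ∑ i, c i * (MonoidAlgebra.of ℤ G (x i) - 1) := rfl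

theorem mem_RM {ι : Type} [Fintype ι] (x : ι → G) (c : ι → ZG G) :
    c ∈ RM x ↔ ∑ i, c i * (MonoidAlgebra.of ℤ G (x i) - 1) = 0 := by
  rw [RM, LinearMap.mem_ker, fox_apply]

/-- the range of `fox` is the left ideal generated by the `x i - 1` -/
theorem range_fox {ι : Type} [Fintype ι] (x : ι → G) :
    LinearMap.range (fox x) = IL ℤ (Set.range x) := by
  classical
  apply le_antisymm
  · rintro _ ⟨c, rfl⟩
    rw [fox_apply]
    refine Submodule.sum_mem _ fun i _ => ?_
    exact Submodule.smul_mem _ (c i) (Submodule.subset_span ⟨x i, ⟨i, rfl⟩, rfl⟩)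
  · unfold IL
    rw [Submodule.span_le]
    rintro _ ⟨_, ⟨i, rfl⟩, rfl⟩
    refine ⟨Pi.single i 1, ?_⟩
    rw [fox_apply, Finset.sum_eq_single i]
    · simp
    · intro j _ hj
      simp [Pi.single_eq_of_ne hj]
    · intro h
      exact absurd (Finset.mem_univ i) h

theorem IL_closure {X : Set G} : IL ℤ X = IL ℤ ((Subgroup.closure X : Subgroup G) : Set G) := by
  apply le_antisymm
  · exact Submodule.span_mono (Set.image_mono Subgroup.subset_closure)
  · exact Pool.Agent.W490.DU.IL_le ℤ (fun x hx => hx)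

theorem IL_eq_augI {X : Set G} (hX : Subgroup.closure X = ⊤) : IL ℤ X = augI G := by
  rw [IL_closure, hX, augI]
  rfl

theorem range_fox_top {ι : Type} [Fintype ι] (x : ι → G)
    (hx : Subgroup.closure (Set.range x) = ⊤) : LinearMap.range (fox x) = augI G := by
  rw [range_fox, IL_eq_augI hx]

/-- `fox` as a map onto the augmentation ideal -/
noncomputable def foxI {ι : Type} [Fintype ι] (x : ι → G)
    (hx : Subgroup.closure (Set.range x) = ⊤) : (ι → ZG G) →ₗ[ZG G] augI G :=
  (fox x).codRestrict (augI G) (fun c => by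
    rw [← range_fox_top x hx]
    exact ⟨c, rfl⟩)

theorem foxI_surj {ι : Type} [Fintype ι] (x : ι → G)
    (hx : Subgroup.closure (Set.range x) = ⊤) : Function.Surjective (foxI x hx) := by
  rintro ⟨y, hy⟩
  rw [← range_fox_top x hx] at hy
  obtain ⟨c, hc⟩ := hy
  exact ⟨c, Subtype.ext hc⟩

theorem foxI_ker {ι : Type} [Fintype ι] (x : ι → G)
    (hx : Subgroup.closure (Set.range x) = ⊤) : LinearMap.ker (foxI x hx) = RM x := by
  ext c
  rw [LinearMap.mem_ker, RM, LinearMap.mem_ker]
  constructor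
  · intro h
    exact congrArg Subtype.val h
  · intro h
    exact Subtype.ext h

theorem FPs_one_iff {R : Type} [Ring R] {M : Type} [AddCommGroup M] [Module R M] :
    FPs R 1 M ↔ Module.Finite R M := by
  constructor
  · rintro ⟨k, f, hf, -⟩
    exact Module.Finite.of_surjective f hf
  · intro h
    obtain ⟨k, f, hf⟩ := Module.Finite.exists_fin' R M
    exact ⟨k, f, hf, trivial⟩

theorem fgf_pi (R : Type) [Ring R] (ι : Type) [Finite ι] : FGF R (ι → R) :=
  FGF.pi ⟨1, ⟨(LinearEquiv.funUnique (Fin 1) R R).symm⟩⟩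

theorem rm_fg_of_FPs {ι : Type} [Fintype ι] (x : ι → G)
    (hx : Subgroup.closure (Set.range x) = ⊤) (h : FPs (ZG G) 2 (augI G)) : (RM x).FG := by
  have h1 := FPs.ker_of_cover (j := 1) (fgf_pi (ZG G) ι) h (foxI x hx) (foxI_surj x hx)
  rw [foxI_ker, FPs_one_iff] at h1
  exact Module.Finite.iff_fg.1 h1

theorem FPs_of_rm_fg {ι : Type} [Fintype ι] (x : ι → G)
    (hx : Subgroup.closure (Set.range x) = ⊤) (h : (RM x).FG) : FPs (ZG G) 2 (augI G) := by
  refine FPs.of_cover_aux (fgf_pi (ZG G) ι) (foxI x hx) (foxI_surj x hx) ?_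
  rw [foxI_ker, FPs_one_iff]
  exact Module.Finite.iff_fg.2 h

end basic

/-! ### Free groups -/

section free
variable {k : ℕ}

/-- the affine action of the free group -/
noncomputable def affF (k : ℕ) : FreeGroup (Fin k) →* Equiv.Perm (Fin k → ZG (FreeGroup (Fin k))) :=
  FreeGroup.lift fun i =>
    { toFun := fun v => MonoidAlgebra.of ℤ _ (FreeGroup.of i) • v + Pi.single i 1
      invFun := fun v => MonoidAlgebra.of ℤ _ (FreeGroup.of i)⁻¹ • (v - Pi.single i 1)
      left_inv := fun v => by
        simp only [add_sub_cancel_right]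
        rw [← mul_smul, ← map_mul, inv_mul_cancel, map_one, one_smul]
      right_inv := fun v => by
        simp only
        rw [← mul_smul, ← map_mul, mul_inv_cancel, map_one, one_smul, sub_add_cancel] }

theorem affF_of (i : Fin k) (v : Fin k → ZG (FreeGroup (Fin k))) :
    affF k (FreeGroup.of i) v = MonoidAlgebra.of ℤ _ (FreeGroup.of i) • v + Pi.single i 1 := by
  rw [affF, FreeGroup.lift_apply_of]
  rfl

theorem affF_apply (g : FreeGroup (Fin k)) : ∀ v : Fin k → ZG (FreeGroup (Fin k)),
    affF k g v = MonoidAlgebra.of ℤ _ g • v + affF k g 0 := by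
  have key : ∀ g : FreeGroup (Fin k), (∀ v : Fin k → ZG (FreeGroup (Fin k)),
      affF k g v = MonoidAlgebra.of ℤ _ g • v + affF k g 0) →
      ∀ v : Fin k → ZG (FreeGroup (Fin k)),
      affF k g⁻¹ v = MonoidAlgebra.of ℤ _ g⁻¹ • v + affF k g⁻¹ 0 := by
    intro g hg v
    have h1 : ∀ w, affF k g⁻¹ w = MonoidAlgebra.of ℤ _ g⁻¹ • (w - affF k g 0) := by
      intro w
      apply (affF k g).injective
      rw [hg (MonoidAlgebra.of ℤ _ g⁻¹ • (w - affF k g 0)), ← mul_smul, ← map_mul,
        mul_inv_cancel, map_one, one_smul, sub_add_cancel, ← Equiv.Perm.mul_apply, ← map_mul,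
        mul_inv_cancel, map_one, Equiv.Perm.one_apply]
    rw [h1, h1 0, zero_sub, smul_sub, smul_neg, sub_eq_add_neg]
  induction g using FreeGroup.induction_on with
  | C1 =>
    intro v
    rw [map_one, map_one, one_smul, Equiv.Perm.one_apply, Equiv.Perm.one_apply, add_zero]
  | of i => intro v; rw [affF_of, affF_of, smul_zero, zero_add]
  | inv_of i h => exact key _ h
  | mul g h hg hh =>
    intro v
    rw [map_mul, Equiv.Perm.mul_apply, Equiv.Perm.mul_apply, hh v, hg (_ + _),
      hg (affF k h 0), map_mul, mul_smul, smul_add, add_assoc]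

theorem fox_free (c : Fin k → ZG (FreeGroup (Fin k)))
    (h : fox (FreeGroup.of : Fin k → FreeGroup (Fin k)) c = 0) : c = 0 := by
  classical
  obtain ⟨D, hD⟩ := Pool.Agent.W335.DU.HN.crossed ℤ (Fin k → ZG (FreeGroup (Fin k)))
    (fun g => affF k g 0) (by
      intro g h
      rw [map_mul, Equiv.Perm.mul_apply, affF_apply g])
  have h2 := congrArg D h
  rw [fox_apply, map_sum, map_zero] at h2
  rw [← h2]
  have : ∀ i, D (c i * (MonoidAlgebra.of ℤ _ (FreeGroup.of i) - 1)) = Pi.single i (c i) := by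
    intro i
    rw [hD, affF_of, smul_zero, zero_add]
    funext j
    by_cases hj : j = i
    · subst hj; simp
    · simp [Pi.single_eq_of_ne hj]
  simp only [this]
  funext j
  simp [Finset.sum_apply, Pi.single_apply]

theorem free_RM : RM (FreeGroup.of : Fin k → FreeGroup (Fin k)) = ⊥ := by
  rw [eq_bot_iff]
  intro c hc
  exact fox_free c hc

end free

end Pool.Agent.Helper379_HC
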