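import Pool.Agent.Y66.HC.Defs
import Pool.Agent.W386.FPs

/-!
# The homological 1-2-3 conjecture fails (MP_3ca9d5_al, S01246): statements of the parts
-/

set_option autoImplicit false

namespace Pool.Agent.Helper379_HC

open Pool.Agent.W326.DU Pool.Agent.Y66.HC Pool.Agent.W386

/-- the augmentation ideal of the integral group ring, as a left ideal -/
noncomputable def augI (G : Type) [Group G] : Submodule (ZG G) (ZG G) := IL ℤ (Set.univ : Set G)

/-- **BR1**: from a partial resolution of the augmentation ideal to a projective resolution. -/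
def PropBr1 : Prop := ∀ (G : Type) [Group G] (m : ℕ), FPs (ZG G) m (augI G) → FPc m G

/-- **BR2**: converse of BR1. -/
def PropBr2 : Prop := ∀ (G : Type) [Group G] (m : ℕ), FPc m G → FPs (ZG G) m (augI G)

/-- the conditions on the graph needed for the finiteness properties -/
structure GrH {V : Type} [Fintype V] (ad : V → V → Prop) : Prop where
  symm : ∀ a b, ad a b → ad b a
  irr : ∀ a, ¬ ad a a
  k4 : ∀ a b c d, ad a b → ad a c → ad a d → ad b c → ad b d → ¬ ad c d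
  acyc : Acyc ad
  ne : Nonempty V

/-- `x` is supported in the levels `0, ..., n` of `χ` -/
def Lev {A : Type} [Group A] (χ : A →* Multiplicative ℤ) (n : ℤ) (x : ZG A) : Prop :=
  ∀ g, x.coeff g ≠ 0 → 0 ≤ Multiplicative.toAdd (χ g) ∧ Multiplicative.toAdd (χ g) ≤ n

/-- the right multiplication by `s_v - 1` -/
noncomputable def Rg {V : Type} (ad : V → V → Prop) (v : V) :
    ZG (RAAG ad) →+ ZG (RAAG ad) :=
  rm ℤ (MonoidAlgebra.of ℤ (RAAG ad) (gen ad v) - 1)

/-- **RX**: the right multiplications form a regular family. -/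
def PropRX : Prop := ∀ (V : Type) [Fintype V] (ad : V → V → Prop),
  (∀ a b, ad a b → ad b a) → (∀ a, ¬ ad a a) → Reg ad (Rg ad)

/-- **SLAB**: exactness of the slab complex. -/
def PropSlab : Prop := ∀ (V : Type) [Fintype V] (ad : V → V → Prop), GrH ad →
  ∀ (χ : RAAG ad →* Multiplicative ℤ), (∀ v, χ (gen ad v) = Multiplicative.ofAdd 1) →
  (∀ x : ZG (RAAG ad), Lev χ 3 x → augm (RAAG ad) x = 0 →
    ∃ y : V → ZG (RAAG ad), (∀ v, Lev χ 2 (y v)) ∧ x = ∑ v, Rg ad v (y v)) ∧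
  (∀ y : V → ZG (RAAG ad), (∀ v, Lev χ 2 (y v)) → ∑ v, Rg ad v (y v) = 0 →
    ∃ z : V → V → ZG (RAAG ad), IsAlt2 ad Set.univ z ∧ (∀ a b, Lev χ 1 (z a b)) ∧
      ∀ b, y b = ∑ a, Rg ad a (z a b)) ∧
  (∀ z : V → V → ZG (RAAG ad), IsAlt2 ad Set.univ z → (∀ a b, Lev χ 1 (z a b)) →
    (∀ b, ∑ a, Rg ad a (z a b) = 0) →
    ∃ w : V → V → V → ZG (RAAG ad), IsAlt3 ad Set.univ w ∧ (∀ a b c, Lev χ 0 (w a b c)) ∧
      ∀ b c, z b c = ∑ a, Rg ad a (w a b c))

/-- **Q3**: the kernel of `χ` is of type `FP_3`. -/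
def PropQ3 : Prop := ∀ (V : Type) [Fintype V] (ad : V → V → Prop), GrH ad →
  ∀ (χ : RAAG ad →* Multiplicative ℤ), (∀ v, χ (gen ad v) = Multiplicative.ofAdd 1) →
  FPs (ZG χ.ker) 3 (augI χ.ker)

/-- **PILE**: the sets of first letters in a right-angled Artin group. -/
def PropPile : Prop := ∀ (V : Type) [Fintype V] (ad : V → V → Prop),
  (∀ a b, ad a b → ad b a) → (∀ a, ¬ ad a a) →
  ∃ F : RAAG ad → Set V, F 1 = ∅ ∧ (∀ g, g ≠ 1 → (F g).Nonempty) ∧
    (∀ g v, F (g * gen ad v) ⊆ insert v (F g)) ∧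
    (∀ g v, F (g * (gen ad v)⁻¹) ⊆ insert v (F g)) ∧
    (∀ g u v, ad u v → ∃ K : Set V, (∀ a ∈ K, ∀ b ∈ K, a = b ∨ ad a b) ∧
      F g ⊆ K ∧ F (g * gen ad u) ⊆ K ∧ F (g * gen ad v) ⊆ K ∧
      F (g * gen ad u * gen ad v) ⊆ K)

/-- **HOL**: the kernel of `χ` is not finitely presented. -/
def PropHol : Prop := ∀ (V J : Type) [Fintype V] [Group J] (ad : V → V → Prop) (γ : V → V → J)
  (l : ℕ) (p : ℕ → V), GrData ad γ l p →
  ∀ (χ : RAAG ad →* Multiplicative ℤ), (∀ v, χ (gen ad v) = Multiplicative.ofAdd 1) →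
  ∀ (k : ℕ) (φ : FreeGroup (Fin k) →* RAAG ad), φ.range = χ.ker →
  ∀ S : Set (FreeGroup (Fin k)), S.Finite → Subgroup.normalClosure S ≠ φ.ker

end Pool.Agent.Helper379_HC
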